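import Mathlib
import Pool.Agent.V11204.NAdic
import Pool.Agent.V11204.Lattice2

/-!
# The average `N`-adic complexity of finite sequences is `n/2 + O(1)`

For all `N ≥ 2` and `n` we show `|E_n^fin - n/2| ≤ 6`.
-/

namespace Pool.Agent.Results.MP_68df70_lc.AverageHalf
open Pool.Agent.V11204 NAdic Lattice2 Filter Topology

/-- The `N`-adic complexity of the infinite sequence `b` is (finite and) equal to `x`: the
`N`-adic integer of `b` is the rational `f/g` in lowest terms, `g > 0`, and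
`x = log_N max(|f|,|g|)`. -/
def HasComplexity {N : ℕ} (b : ℕ → Fin N) (x : ℝ) : Prop :=
  ∃ f g : ℤ, 0 < g ∧ IsCoprime f g ∧ Represents b f g ∧
    x = Real.logb N ((max |f| |g| : ℤ) : ℝ)

/-- The `N`-adic complexity of a finite word: the least complexity of an infinite sequence that
extends it. -/
noncomputable def wordComplexity {N n : ℕ} (w : Fin n → Fin N) : ℝ :=
  sInf {x | ∃ b : ℕ → Fin N, (∀ i : Fin n, b i = w i) ∧ HasComplexity b x}

/-- The average `E_n^fin` of the complexity over all `N^n` words of length `n`. -/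
noncomputable def Efin (N n : ℕ) : ℝ := (∑ w : Fin n → Fin N, wordComplexity w) / (N : ℝ) ^ n

/-- In lowest terms the denominator is automatically coprime to `N`. -/
lemma coprime_N {N : ℕ} {b : ℕ → Fin N} {f g : ℤ} (hfg : IsCoprime f g)
    (h : Represents b f g) : IsCoprime g (N : ℤ) := by
  rw [Int.isCoprime_iff_gcd_eq_one]
  by_contra hne
  obtain ⟨p, hp, hpd⟩ := Nat.exists_prime_and_dvd hne
  have h1 : (p : ℤ) ∣ g := (Int.natCast_dvd_natCast.mpr hpd).trans (Int.gcd_dvd_left ..)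
  have h2 : (p : ℤ) ∣ (N : ℤ) := (Int.natCast_dvd_natCast.mpr hpd).trans (Int.gcd_dvd_right ..)
  have h3 := h 1
  rw [pow_one] at h3
  have h4 : (p : ℤ) ∣ f := (dvd_sub_right (Dvd.dvd.mul_right h1 _)).mp (h2.trans h3)
  exact (Nat.prime_iff_prime_int.mp hp).not_isUnit (hfg.isUnit_of_dvd' h4 h1)

/-- existence of the complexity: every rational with denominator coprime to `N` -/
lemma exists_seq {N n : ℕ} (hN : 2 ≤ N) (a : ℕ → Fin N) {f g : ℤ} (hg : g ≠ 0)
    (hc : IsCoprime g (N : ℤ)) (h : ((N ^ n : ℕ) : ℤ) ∣ g * psum a n - f) :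
    ∃ b : ℕ → Fin N, (∀ i < n, b i = a i) ∧ ∃ x, HasComplexity b x ∧
      x ≤ Real.logb N ((max |f| |g| : ℤ) : ℝ) := by
  have hN1 : (1 : ℝ) < N := by exact_mod_cast (by omega : 1 < N)
  -- reduce to lowest terms with positive denominator
  obtain ⟨f', g', hg', hcop, hcN, hd, hle⟩ : ∃ f' g' : ℤ, 0 < g' ∧ IsCoprime f' g' ∧
      IsCoprime g' (N : ℤ) ∧ ((N ^ n : ℕ) : ℤ) ∣ g' * psum a n - f' ∧
      max |f'| |g'| ≤ max |f| |g| := by
    have he0 : 0 < Int.gcd f g := Int.gcd_pos_of_ne_zero_right _ hg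
    obtain ⟨f₀, hf₀⟩ : (Int.gcd f g : ℤ) ∣ f := Int.gcd_dvd_left ..
    obtain ⟨g₀, hg₀⟩ : (Int.gcd f g : ℤ) ∣ g := Int.gcd_dvd_right ..
    have hab := Int.gcd_eq_gcd_ab f g
    have hepos : (0 : ℤ) < (Int.gcd f g : ℤ) := by exact_mod_cast he0
    set e : ℤ := (Int.gcd f g : ℤ) with he
    have hce : IsCoprime e (N : ℤ) := hc.of_isCoprime_of_dvd_left ⟨g₀, hg₀⟩
    have hc0 : IsCoprime g₀ (N : ℤ) := hc.of_isCoprime_of_dvd_left ⟨e, by rw [hg₀]; ring⟩
    have hcop : IsCoprime f₀ g₀ := by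
      refine ⟨Int.gcdA f g, Int.gcdB f g, ?_⟩
      apply mul_left_cancel₀ hepos.ne'
      have : e * (Int.gcdA f g * f₀ + Int.gcdB f g * g₀) =
        (e * f₀) * Int.gcdA f g + (e * g₀) * Int.gcdB f g := by ring
      rw [this, ← hf₀, ← hg₀, mul_one]
      exact hab.symm
    have hd0 : ((N ^ n : ℕ) : ℤ) ∣ g₀ * psum a n - f₀ := by
      have e1 : g * psum a n - f = e * (g₀ * psum a n - f₀) := by
        conv_lhs => rw [hg₀, hf₀]
        ring
      rw [e1] at h
      push_cast at h ⊢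
      exact (hce.symm.pow_left).dvd_of_dvd_mul_left h
    have hg₀ne : g₀ ≠ 0 := by rintro rfl; rw [mul_zero] at hg₀; exact hg hg₀
    have hle : max |f₀| |g₀| ≤ max |f| |g| := by
      apply max_le_max
      · conv_rhs => rw [hf₀]
        rw [abs_mul, abs_of_pos hepos]
        nlinarith [abs_nonneg f₀]
      · conv_rhs => rw [hg₀]
        rw [abs_mul, abs_of_pos hepos]
        nlinarith [abs_nonneg g₀]
    rcases lt_or_gt_of_ne hg₀ne with hneg | hpos
    · refine ⟨-f₀, -g₀, by linarith, hcop.neg_neg, hc0.neg_left, ?_, by rwa [abs_neg, abs_neg]⟩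
      have : -g₀ * psum a n - -f₀ = -(g₀ * psum a n - f₀) := by ring
      rw [this]; exact (dvd_neg).mpr hd0
    · exact ⟨f₀, g₀, hpos, hcop, hc0, hd0, hle⟩
  obtain ⟨b, -, hb⟩ := exists_digits hN f' g' hg' hcN
  push_cast at hd
  refine ⟨b, extends_of_dvd (by omega) hcN hb hd, _, ⟨f', g', hg', hcop, hb, rfl⟩, ?_⟩
  apply Real.logb_le_logb_of_le hN1
  · have : (0 : ℤ) < max |f'| |g'| := lt_max_of_lt_right (abs_pos.mpr hg'.ne')
    exact_mod_cast this
  · exact_mod_cast hle

/-- The two bounds for the complexity of a word in terms of the shortest vector. -/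
lemma word_bounds {N n : ℕ} (hN : 2 ≤ N) (w : Fin n → Fin N) :
    Real.logb N (rho ((N ^ n : ℕ) : ℤ) ((finFunctionFinEquiv w : ℕ) : ℤ)) ≤ wordComplexity w ∧
    wordComplexity w ≤
      n + 3 - Real.logb N (rho ((N ^ n : ℕ) : ℤ) ((finFunctionFinEquiv w : ℕ) : ℤ)) := by
  have hN1 : (1 : ℝ) < N := by exact_mod_cast (by omega : 1 < N)
  let a : ℕ → Fin N := fun i => if h : i < n then w ⟨i, h⟩ else ⟨0, by omega⟩
  have hA : psum a n = ((finFunctionFinEquiv w : ℕ) : ℤ) := by
    rw [finFunctionFinEquiv_apply]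
    unfold psum
    rw [Finset.sum_range]
    push_cast
    refine Finset.sum_congr rfl fun i _ => ?_
    have : a i = w i := by simp [a]
    rw [this]
  have haw : ∀ b : ℕ → Fin N, (∀ i : Fin n, b i = w i) ↔ ∀ i < n, b i = a i := by
    intro b
    constructor
    · intro h i hi
      have := h ⟨i, hi⟩
      simp only [a, hi, dif_pos]
      exact this
    · intro h i
      have := h i i.2
      simpa [a] using this
  rw [← hA]
  set A : ℤ := psum a n
  set r := rho ((N ^ n : ℕ) : ℤ) A with hr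
  have hr1 : 1 ≤ r := rho_pos _ _
  have hr0 : (0 : ℝ) < r := by exact_mod_cast hr1
  have hMpos : (0 : ℤ) < ((N ^ n : ℕ) : ℤ) := by positivity
  have hset : ∀ x ∈ {x | ∃ b : ℕ → Fin N, (∀ i : Fin n, b i = w i) ∧ HasComplexity b x},
      Real.logb N r ≤ x := by
    rintro x ⟨b, hb, f, g, hg, hfg, hrep, rfl⟩
    have hb' := (haw b).1 hb
    have h1 := hrep n
    rw [psum_congr hb'] at h1
    have h2 : (r : ℤ) ≤ max |f| |g| := rho_min (Or.inr hg.ne') (by push_cast; exact h1)
    apply Real.logb_le_logb_of_le hN1 hr0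
    exact_mod_cast h2
  obtain ⟨f, g, hd, hc, hf, hg⟩ := unit_vector (A := A) hMpos (N := N) (by omega)
  have hg0 : g ≠ 0 := by
    rintro rfl
    have := (isCoprime_zero_left).mp hc
    rw [Int.isUnit_iff] at this
    omega
  obtain ⟨b, hb, x, hx, hxle⟩ := exists_seq (n := n) hN a hg0 hc hd
  have hmem : x ∈ {x | ∃ b : ℕ → Fin N, (∀ i : Fin n, b i = w i) ∧ HasComplexity b x} :=
    ⟨b, (haw b).2 hb, hx⟩
  constructor
  · exact le_csInf ⟨x, hmem⟩ hset
  · refine (csInf_le ⟨_, hset⟩ hmem).trans (hxle.trans ?_)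
    have h1 : (r : ℝ) * ((max |f| |g| : ℤ) : ℝ) ≤ (2 * N + 2) * (N : ℝ) ^ n := by
      have h2 : (r : ℤ) * max |f| |g| ≤ (2 * N + 2) * ((N ^ n : ℕ) : ℤ) := by
        rcases le_total |f| |g| with h | h
        · rw [max_eq_right h]; exact hg
        · rw [max_eq_left h]; exact hf
      exact_mod_cast h2
    have h2 : (0 : ℝ) < ((max |f| |g| : ℤ) : ℝ) := by
      have : (0 : ℤ) < max |f| |g| := lt_max_of_lt_right (abs_pos.mpr hg0)
      exact_mod_cast this
    have h3 : ((2 : ℝ) * N + 2) * (N : ℝ) ^ n ≤ (N : ℝ) ^ (n + 3) := by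
      rw [pow_add, mul_comm]
      apply mul_le_mul_of_nonneg_left _ (by positivity)
      have : (2 : ℝ) ≤ N := by exact_mod_cast hN
      nlinarith [mul_nonneg (sub_nonneg.mpr this) (sub_nonneg.mpr this),
        mul_nonneg (sub_nonneg.mpr this) (mul_nonneg (sub_nonneg.mpr this) (sub_nonneg.mpr this))]
    have h4 := Real.logb_le_logb_of_le hN1 (by positivity) (h1.trans h3)
    rw [Real.logb_mul hr0.ne' h2.ne', Real.logb_pow, Real.logb_self_eq_one hN1] at h4
    push_cast at h4 ⊢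
    linarith

/-- **Main theorem.**  For all `N ≥ 2` and all `n`, `|E_n^fin - n/2| ≤ 6`: the average `N`-adic
complexity of the `N^n` words of length `n` is `n/2 + O(1)`, with an absolute constant.  In
particular `E_n^fin / n → 1/2` as `n → ∞`, for every `N`. -/
theorem result :
    (∀ N n : ℕ, 2 ≤ N → |Efin N n - n / 2| ≤ 6) ∧
    ∀ N : ℕ, 2 ≤ N → Tendsto (fun n : ℕ => Efin N n / n) atTop (𝓝 (1 / 2)) := by
  have main : ∀ N n : ℕ, 2 ≤ N → |Efin N n - n / 2| ≤ 6 := by
    intro N n hN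
    have hN1 : (1 : ℝ) < N := by exact_mod_cast (by omega : 1 < N)
    have hpos : (0 : ℝ) < (N : ℝ) ^ n := by positivity
    let F : ℕ → ℝ := fun A => Real.logb N (rho ((N ^ n : ℕ) : ℤ) (A : ℤ))
    have hsum : ∑ w : Fin n → Fin N, F (finFunctionFinEquiv w : ℕ) =
        ∑ A ∈ Finset.range (N ^ n), F A := by
      rw [Equiv.sum_comp finFunctionFinEquiv (fun A : Fin (N ^ n) => F (A : ℕ)),
        Finset.sum_range]
    have hlow := sum_log_rho hN n
    have h1 : (N : ℝ) ^ n * (n / 2 - 3) ≤ ∑ w : Fin n → Fin N, F (finFunctionFinEquiv w : ℕ) := by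
      rw [hsum]; exact hlow
    have h2 : ∑ w : Fin n → Fin N, F (finFunctionFinEquiv w : ℕ) ≤
        ∑ w : Fin n → Fin N, wordComplexity w :=
      Finset.sum_le_sum fun w _ => (word_bounds hN w).1
    have h3 : ∑ w : Fin n → Fin N, wordComplexity w ≤
        ∑ w : Fin n → Fin N, ((n : ℝ) + 3 - F (finFunctionFinEquiv w : ℕ)) :=
      Finset.sum_le_sum fun w _ => (word_bounds hN w).2
    rw [Finset.sum_sub_distrib, Finset.sum_const, Finset.card_univ, Fintype.card_fun,
      Fintype.card_fin, Fintype.card_fin, nsmul_eq_mul] at h3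
    push_cast at h3
    unfold Efin
    rw [abs_le]
    constructor
    · rw [neg_le_sub_iff_le_add, div_add' _ _ _ hpos.ne', le_div_iff₀ hpos]
      nlinarith
    · rw [sub_le_iff_le_add, div_le_iff₀ hpos]
      nlinarith
  refine ⟨main, fun N hN => ?_⟩
  have h6 : Tendsto (fun n : ℕ => (6 : ℝ) / n) atTop (𝓝 0) :=
    tendsto_const_div_atTop_nhds_zero_nat 6
  have hz : Tendsto (fun n : ℕ => Efin N n / n - 1 / 2) atTop (𝓝 0) := by
    apply squeeze_zero_norm' _ h6
    filter_upwards [eventually_gt_atTop 0] with n hn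
    have hn' : (0 : ℝ) < n := by exact_mod_cast hn
    have e : Efin N n / n - 1 / 2 = (Efin N n - n / 2) / n := by field_simp
    rw [e, Real.norm_eq_abs, abs_div, abs_of_pos hn']
    exact div_le_div_of_nonneg_right (main N n hN) hn'.le
  simpa using hz.add_const (1 / 2 : ℝ)

end Pool.Agent.Results.MP_68df70_lc.AverageHalf
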